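import Pool.Agent.Helper21.MH.Bound

/-!
Heavy problem MP_b8862a_ag, sharp bound in level two: commuting self-adjoint spaces of matrices, and
the injection of the kernel of `h` into `Hom (L_m, V_m)`.
-/

open Matrix

namespace MH
variable {n : Type*} [Fintype n] [DecidableEq n]

private lemma toE_mul (A B : Matrix n n ℂ) (v : EuclideanSpace ℂ n) :
    Matrix.toEuclideanLin (A * B) v = Matrix.toEuclideanLin A (Matrix.toEuclideanLin B v) := by
  apply (WithLp.ofLp_injective 2)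
  simp only [Matrix.ofLp_toEuclideanLin_apply, Matrix.mulVec_mulVec]

/-- A commuting space of matrices, closed under the adjoint and supported on the projection `P`, has
at most the dimension of the image of `P`. -/
theorem comm_finrank {P : Matrix n n ℂ} (h1 : P * P = P) (h2 : Pᴴ = P)
    (A : Submodule ℂ (Matrix n n ℂ)) (hA : ∀ x ∈ A, P * x = x ∧ x * P = x)
    (st : ∀ x ∈ A, xᴴ ∈ A) (hc : ∀ x ∈ A, ∀ y ∈ A, x * y = y * x) :
    Module.finrank ℂ A ≤ P.rank := by
  classical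
  let ι := {x : Matrix n n ℂ // x ∈ A ∧ xᴴ = x}
  let T : ι → (EuclideanSpace ℂ n →ₗ[ℂ] EuclideanSpace ℂ n) := fun x => Matrix.toEuclideanLin x.1
  have hT : ∀ i, (T i).IsSymmetric := fun x =>
    Matrix.isHermitian_iff_isSymmetric.mp x.2.2
  have hC : Pairwise (Function.onFun Commute T) := by
    intro x y _
    apply LinearMap.ext
    intro v
    change Matrix.toEuclideanLin x.1 (Matrix.toEuclideanLin y.1 v) =
      Matrix.toEuclideanLin y.1 (Matrix.toEuclideanLin x.1 v)
    rw [← toE_mul, ← toE_mul, hc _ x.2.1 _ y.2.1]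
  set W : (ι → ℂ) → Submodule ℂ (EuclideanSpace ℂ n) :=
    fun χ => ⨅ j, Module.End.eigenspace (T j) (χ j) with hW
  have hint : DirectSum.IsInternal W := LinearMap.IsSymmetric.directSum_isInternal_of_pairwise_commute hT hC
  have hO : OrthogonalFamily ℂ (fun χ => W χ) fun χ => (W χ).subtypeₗᵢ :=
    LinearMap.IsSymmetric.orthogonalFamily_iInf_eigenspaces hT
  have htop : ⨆ χ, W χ = ⊤ := hint.submodule_iSup_eq_top
  have hfin : {χ | W χ ≠ ⊥}.Finite := WellFoundedGT.finite_ne_bot_of_iSupIndep hint.submodule_iSupIndep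
  -- the action on the joint eigenspaces
  have hact : ∀ x ∈ A, ∀ χ, ∃ c : ℂ, ∀ w ∈ W χ, Matrix.toEuclideanLin x w = c • w := by
    intro x hx χ
    have ha : (2 : ℂ)⁻¹ • (x + xᴴ) ∈ A ∧ ((2 : ℂ)⁻¹ • (x + xᴴ))ᴴ = (2 : ℂ)⁻¹ • (x + xᴴ) := by
      refine ⟨A.smul_mem _ (A.add_mem hx (st x hx)), ?_⟩
      rw [conjTranspose_smul, conjTranspose_add, conjTranspose_conjTranspose, add_comm]
      simp
    have hb : (-(Complex.I) * (2 : ℂ)⁻¹) • (x - xᴴ) ∈ A ∧
        ((-(Complex.I) * (2 : ℂ)⁻¹) • (x - xᴴ))ᴴ = (-(Complex.I) * (2 : ℂ)⁻¹) • (x - xᴴ) := by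
      refine ⟨A.smul_mem _ (A.sub_mem hx (st x hx)), ?_⟩
      rw [conjTranspose_smul, conjTranspose_sub, conjTranspose_conjTranspose]
      have e : star (-(Complex.I) * (2 : ℂ)⁻¹) = Complex.I * (2 : ℂ)⁻¹ := by
        simp
      rw [e]
      module
    refine ⟨χ ⟨_, ha⟩ + Complex.I * χ ⟨_, hb⟩, fun w hw => ?_⟩
    have hw' := (Submodule.mem_iInf _).mp hw
    have e1 := Module.End.mem_eigenspace_iff.mp (hw' ⟨_, ha⟩)
    have e2 := Module.End.mem_eigenspace_iff.mp (hw' ⟨_, hb⟩)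
    change Matrix.toEuclideanLin ((2 : ℂ)⁻¹ • (x + xᴴ)) w = _ at e1
    change Matrix.toEuclideanLin ((-(Complex.I) * (2 : ℂ)⁻¹) • (x - xᴴ)) w = _ at e2
    have e3 : x = (2 : ℂ)⁻¹ • (x + xᴴ) + Complex.I • ((-(Complex.I) * (2 : ℂ)⁻¹) • (x - xᴴ)) := by
      rw [smul_smul, ← mul_assoc, mul_neg, Complex.I_mul_I, neg_neg, one_mul]
      module
    have e4 := congrArg (fun y => Matrix.toEuclideanLin y w) e3
    refine e4.trans ?_
    change Matrix.toEuclideanLin ((2 : ℂ)⁻¹ • (x + xᴴ) + Complex.I • ((-(Complex.I) * (2 : ℂ)⁻¹) • (x - xᴴ))) w = _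
    rw [map_add, map_smul _ Complex.I, LinearMap.add_apply, LinearMap.smul_apply, e1, e2, smul_smul, ← add_smul]
  -- a separating vector
  have hex : ∀ χ, ∃ v ∈ W χ, W χ ≠ ⊥ → v ≠ 0 := by
    intro χ
    by_cases h : W χ = ⊥
    · exact ⟨0, zero_mem _, fun h' => absurd h h'⟩
    · obtain ⟨v, hv, hv0⟩ := Submodule.exists_mem_ne_zero_of_ne_bot h
      exact ⟨v, hv, fun _ => hv0⟩
  choose v hv hv0 using hex
  set u : EuclideanSpace ℂ n := ∑ χ ∈ hfin.toFinset, v χ with hu
  let φ : A →ₗ[ℂ] LinearMap.range P.mulVecLin :=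
    { toFun := fun x => ⟨(x : Matrix n n ℂ) *ᵥ (WithLp.ofLp u), (x : Matrix n n ℂ) *ᵥ (WithLp.ofLp u), by
        rw [Matrix.mulVecLin_apply, Matrix.mulVec_mulVec, (hA x x.2).1]⟩
      map_add' := fun x y => Subtype.ext (Matrix.add_mulVec _ _ _)
      map_smul' := fun c x => Subtype.ext (Matrix.smul_mulVec _ _ _) }
  have hinj : Function.Injective φ := by
    rw [injective_iff_map_eq_zero]
    intro x hx
    have h3 : Matrix.toEuclideanLin (x : Matrix n n ℂ) u = 0 := by
      apply (WithLp.ofLp_injective 2)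
      rw [Matrix.ofLp_toEuclideanLin_apply]
      exact congrArg Subtype.val hx
    choose c hc' using hact x x.2
    have h4 : ∑ χ ∈ hfin.toFinset, c χ • v χ = 0 := by
      rw [hu, map_sum] at h3
      rw [← h3]
      exact Finset.sum_congr rfl fun χ _ => (hc' χ _ (hv χ)).symm
    have h5 : ∀ χ, W χ ≠ ⊥ → c χ = 0 := by
      intro χ hχ
      have h6 := congrArg (fun y => inner ℂ (v χ) y) h4
      simp only [inner_sum, inner_zero_right, inner_smul_right] at h6
      rw [Finset.sum_eq_single χ] at h6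
      · rcases mul_eq_zero.mp h6 with h7 | h7
        · exact h7
        · exact absurd (inner_self_eq_zero.mp h7) (hv0 χ hχ)
      · intro χ' _ hne
        have h7 := hO (Ne.symm hne) ⟨v χ, hv χ⟩ ⟨v χ', hv χ'⟩
        change inner ℂ (v χ) (v χ') = 0 at h7
        rw [h7, mul_zero]
      · intro h7
        exact absurd (hfin.mem_toFinset.mpr hχ) h7
    have h6 : (⊤ : Submodule ℂ (EuclideanSpace ℂ n)) ≤ LinearMap.ker (Matrix.toEuclideanLin (x : Matrix n n ℂ)) := by
      rw [← htop]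
      refine iSup_le fun χ w hw => ?_
      rw [LinearMap.mem_ker, hc' χ w hw]
      by_cases h7 : W χ = ⊥
      · rw [h7, Submodule.mem_bot] at hw
        rw [hw, smul_zero]
      · rw [h5 χ h7, zero_smul]
    have h7 : Matrix.toEuclideanLin (x : Matrix n n ℂ) = 0 := LinearMap.ker_eq_top.mp (top_le_iff.mp h6)
    apply Subtype.ext
    exact Matrix.toEuclideanLin.injective (by rw [h7]; simp)
  exact LinearMap.finrank_le_finrank_of_injective hinj

variable {τ : Matrix n n ℂ →ₗ[ℂ] Matrix n n ℂ} {L : Submodule ℂ (Matrix n n ℂ)} {h : Matrix n n ℂ}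
  {E : ℝ → Matrix n n ℂ} {Λ : Finset ℝ}

/-- In level two the kernel of `h` embeds into `Hom (L_m, V_m)`. -/
theorem Dat.rank_zero_le2 (D : Dat τ L h E Λ) (hP0 : Pp E Λ ≠ 0) {m : ℝ}
    (hlev : ∀ ν, ν ≠ m → ν ≠ 0 → ν ≠ -m → E ν = 0) (hm : 0 < m) :
    (E 0).rank ≤ Module.finrank ℂ (Ld L h m) * (Pp E Λ).rank := by
  classical
  have S := D.spec
  set P := Pp E Λ with hP
  have hPP : P * P = P := S.sum_mul_sum _
  have e0 : E 0 = ∑ μ ∈ ({0} : Finset ℝ), E μ := by rw [Finset.sum_singleton]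
  have hZZ : E 0 * E 0 = E 0 := by rw [S.mul, if_pos rfl]
  set R : Submodule ℂ (n → ℂ) := LinearMap.range P.mulVecLin with hR
  set R0 : Submodule ℂ (n → ℂ) := LinearMap.range (E 0).mulVecLin with hR0
  have hfix : ∀ v ∈ R0, E 0 *ᵥ v = v := by
    rintro v ⟨u, rfl⟩
    rw [Matrix.mulVecLin_apply, Matrix.mulVec_mulVec, hZZ]
  have hup : ∀ x ∈ Ld L h m, x ∈ Lup L E := by
    intro x hx
    refine ⟨hx.1, fun μ ν h1 => D.Ld_block hx ?_⟩
    rintro rfl
    exact h1 (by linarith)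
  have hmem : ∀ x ∈ Ld L h m, ∀ v ∈ R0, x *ᵥ v ∈ R := by
    intro x hx v hv
    have z2 : E 0 * x * E 0 = 0 := (hup x hx).2 0 0 (lt_irrefl _)
    have z4 : Qn E Λ * x * E 0 = 0 := by
      rw [e0]
      unfold Qn
      refine (hup x hx).2.sum_zero fun μ hμ ν hν => ?_
      have h3 := (Finset.mem_filter.1 hμ).2
      rw [Finset.mem_singleton.1 hν]
      exact not_lt.2 h3.le
    have h1 : x * E 0 = P * (x * E 0) := by
      have h2 : x * E 0 = (P + E 0 + Qn E Λ) * (x * E 0) := by rw [hP, S.one_eq, one_mul]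
      rw [h2, add_mul, add_mul, ← mul_assoc (E 0), z2, ← mul_assoc (Qn E Λ), z4, add_zero, add_zero, ← mul_assoc P P,
        hPP]
    rw [← hfix v hv, Matrix.mulVec_mulVec, h1, ← Matrix.mulVec_mulVec]
    exact ⟨_, rfl⟩
  let Φ : R0 →ₗ[ℂ] (Ld L h m →ₗ[ℂ] R) :=
    { toFun := fun v =>
        { toFun := fun x => ⟨(x : Matrix n n ℂ) *ᵥ v, hmem x x.2 v v.2⟩
          map_add' := fun x y => Subtype.ext (Matrix.add_mulVec _ _ _)
          map_smul' := fun c x => Subtype.ext (Matrix.smul_mulVec _ _ _) }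
      map_add' := fun v w => LinearMap.ext fun x => Subtype.ext (Matrix.mulVec_add _ _ _)
      map_smul' := fun c v => LinearMap.ext fun x => Subtype.ext (Matrix.mulVec_smul _ _ _) }
  have hinj : Function.Injective Φ := by
    rw [injective_iff_map_eq_zero]
    intro v hv
    apply Subtype.ext
    refine D.killed hP0 (hfix v v.2) fun x hx => ?_
    -- only the component of degree `m` matters
    have h1 := LinearMap.congr_fun hv ⟨cmp E Λ m x, D.cmp_mem_Ld hx.1 m⟩
    have h2 : cmp E Λ m x *ᵥ (v : n → ℂ) = 0 := congrArg Subtype.val h1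
    have h3 : x * E 0 = cmp E Λ m x * E 0 := by
      apply S.ext
      intro μ μ'
      rw [← mul_assoc, ← mul_assoc, mul_assoc (E μ * x), mul_assoc (E μ * cmp E Λ m x)]
      rw [S.mul]
      by_cases h4 : (0 : ℝ) = μ'
      · rw [if_pos h4, S.block_cmp]
        split_ifs with h5
        · rfl
        · rw [sub_zero] at h5
          by_cases h6 : μ = 0
          · rw [h6]; exact hx.2 0 0 (lt_irrefl _)
          · by_cases h7 : μ = -m
            · rw [h7]; exact hx.2 (-m) 0 (not_lt.2 (by linarith))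
            · rw [hlev μ h5 h6 h7]; simp
      · rw [if_neg h4]; simp
    rw [← hfix v v.2, Matrix.mulVec_mulVec, h3, ← Matrix.mulVec_mulVec, hfix v v.2]
    exact h2
  have h1 := LinearMap.finrank_le_finrank_of_injective hinj
  rw [Module.finrank_linearMap] at h1
  exact h1

end MH
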