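import Mathlib

/-!
Heavy problem MP_b8862a_ag, sharp bound in level two: the numerical part.
-/

namespace MH

/-- the polynomial of the sharp bound -/
private lemma G_pos {s N d : ℤ} (hs : 2 ≤ s) (hN : s + 1 ≤ N) (hd : N + 1 ≤ d) (hd' : d ≤ s ^ 2 + 1) :
    0 < (s + 1) ^ 2 * (s ^ 2 + N * (d - N) + s ^ 2 * N) - 2 * s ^ 3 * (d + 2 * N) := by
  have hNs : N ≤ s ^ 2 := by linarith
  -- the value at `d = N + 1`
  have G1 : 0 < (s + 1) ^ 2 * (s ^ 2 + N * 1 + s ^ 2 * N) - 2 * s ^ 3 * (N + 1 + 2 * N) := by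
    have e : (s + 1) ^ 2 * (s ^ 2 + N * 1 + s ^ 2 * N) - 2 * s ^ 3 * (N + 1 + 2 * N) =
        N * (s ^ 4 - 4 * s ^ 3 + 2 * s ^ 2 + 2 * s + 1) + s ^ 4 + s ^ 2 := by ring
    rw [e]
    rcases lt_or_ge s 4 with h4 | h4
    · have h5 : s = 2 ∨ s = 3 := by omega
      rcases h5 with rfl | rfl
      · norm_num at hNs ⊢; omega
      · norm_num at hNs ⊢; omega
    · have h5 : 0 ≤ s ^ 4 - 4 * s ^ 3 + 2 * s ^ 2 + 2 * s + 1 := by
        have : 0 ≤ s ^ 3 * (s - 4) := mul_nonneg (by positivity) (by linarith)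
        nlinarith
      have h6 : 0 ≤ N * (s ^ 4 - 4 * s ^ 3 + 2 * s ^ 2 + 2 * s + 1) := mul_nonneg (by linarith) h5
      have h7 : 0 < s ^ 4 := by positivity
      nlinarith
  rcases le_or_gt N (2 * s) with h2 | h2
  · -- the value at `d = s ^ 2 + 1`
    have F1 : 0 < s * (2 * s ^ 3 - s ^ 2 - 1) := by
      apply mul_pos (by linarith)
      nlinarith [mul_nonneg (by linarith : (0:ℤ) ≤ s - 2) (by positivity : (0:ℤ) ≤ s ^ 2)]
    have F2 : 0 < 2 * s ^ 5 - 3 * s ^ 4 - 2 * s ^ 3 + s ^ 2 + 2 * s := by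
      have : 0 ≤ s ^ 3 * ((s - 2) * (2 * s + 1)) :=
        mul_nonneg (by positivity) (mul_nonneg (by linarith) (by linarith))
      nlinarith
    have F : 0 < (s + 1) ^ 2 * (s ^ 2 + N * (s ^ 2 + 1 - N) + s ^ 2 * N) -
        2 * s ^ 3 * (s ^ 2 + 1 + 2 * N) := by
      have e : (s - 1) * ((s + 1) ^ 2 * (s ^ 2 + N * (s ^ 2 + 1 - N) + s ^ 2 * N) -
          2 * s ^ 3 * (s ^ 2 + 1 + 2 * N)) =
          (2 * s - N) * (s * (2 * s ^ 3 - s ^ 2 - 1)) +
          (N - s - 1) * (2 * s ^ 5 - 3 * s ^ 4 - 2 * s ^ 3 + s ^ 2 + 2 * s) +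
          (s - 1) * ((s + 1) ^ 2 * ((2 * s - N) * (N - s - 1))) := by ring
      have a1 : 0 ≤ (2 * s - N) * (s * (2 * s ^ 3 - s ^ 2 - 1)) := mul_nonneg (by linarith) F1.le
      have a2 : 0 ≤ (N - s - 1) * (2 * s ^ 5 - 3 * s ^ 4 - 2 * s ^ 3 + s ^ 2 + 2 * s) :=
        mul_nonneg (by linarith) F2.le
      have a3 : 0 ≤ (s - 1) * ((s + 1) ^ 2 * ((2 * s - N) * (N - s - 1))) :=
        mul_nonneg (by linarith) (mul_nonneg (by positivity) (mul_nonneg (by linarith) (by linarith)))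
      have a4 : 0 < (2 * s - N) * (s * (2 * s ^ 3 - s ^ 2 - 1)) +
          (N - s - 1) * (2 * s ^ 5 - 3 * s ^ 4 - 2 * s ^ 3 + s ^ 2 + 2 * s) := by
        rcases lt_or_ge N (2 * s) with h3 | h3
        · have := mul_pos (by linarith : (0 : ℤ) < 2 * s - N) F1
          linarith
        · have := mul_pos (by linarith : (0 : ℤ) < N - s - 1) F2
          linarith
      have a5 : 0 < (s - 1) * ((s + 1) ^ 2 * (s ^ 2 + N * (s ^ 2 + 1 - N) + s ^ 2 * N) -
          2 * s ^ 3 * (s ^ 2 + 1 + 2 * N)) := by rw [e]; linarith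
      exact (mul_pos_iff_of_pos_left (by linarith)).mp a5
    rcases eq_or_lt_of_le hNs with h3 | h3
    · have h4 : d = N + 1 := by omega
      rw [h4, show N + 1 - N = 1 by ring]
      exact G1
    · have e : (s ^ 2 - N) * ((s + 1) ^ 2 * (s ^ 2 + N * (d - N) + s ^ 2 * N) - 2 * s ^ 3 * (d + 2 * N)) =
          (s ^ 2 + 1 - d) * ((s + 1) ^ 2 * (s ^ 2 + N * 1 + s ^ 2 * N) - 2 * s ^ 3 * (N + 1 + 2 * N)) +
          (d - N - 1) * ((s + 1) ^ 2 * (s ^ 2 + N * (s ^ 2 + 1 - N) + s ^ 2 * N) -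
            2 * s ^ 3 * (s ^ 2 + 1 + 2 * N)) := by ring
      have a4 : 0 < (s ^ 2 + 1 - d) * ((s + 1) ^ 2 * (s ^ 2 + N * 1 + s ^ 2 * N) - 2 * s ^ 3 * (N + 1 + 2 * N)) +
          (d - N - 1) * ((s + 1) ^ 2 * (s ^ 2 + N * (s ^ 2 + 1 - N) + s ^ 2 * N) -
            2 * s ^ 3 * (s ^ 2 + 1 + 2 * N)) := by
        rcases lt_or_ge d (s ^ 2 + 1) with h5 | h5
        · have a1 := mul_pos (by linarith : (0 : ℤ) < s ^ 2 + 1 - d) G1
          have a2 := mul_nonneg (by linarith : (0 : ℤ) ≤ d - N - 1) F.le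
          linarith
        · have a1 := mul_nonneg (by linarith : (0 : ℤ) ≤ s ^ 2 + 1 - d) G1.le
          have a2 := mul_pos (by linarith : (0 : ℤ) < d - N - 1) F
          linarith
      rw [← e] at a4
      exact (mul_pos_iff_of_pos_left (by linarith)).mp a4
  · have e : (s + 1) ^ 2 * (s ^ 2 + N * (d - N) + s ^ 2 * N) - 2 * s ^ 3 * (d + 2 * N) =
        ((s + 1) ^ 2 * (s ^ 2 + N * 1 + s ^ 2 * N) - 2 * s ^ 3 * (N + 1 + 2 * N)) +
        (d - N - 1) * ((s + 1) ^ 2 * N - 2 * s ^ 3) := by ring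
    have a1 : 0 ≤ (s + 1) ^ 2 * N - 2 * s ^ 3 := by
      have : (s + 1) ^ 2 * (2 * s) ≤ (s + 1) ^ 2 * N := mul_le_mul_of_nonneg_left h2.le (by positivity)
      nlinarith
    have a2 := mul_nonneg (by linarith : (0 : ℤ) ≤ d - N - 1) a1
    rw [e]; linarith

/-- **The numerical part of the sharp bound.** Here `n = b + 2 s`, `d` is the dimension of the part
of degree zero, `N₁`, `N₂` those of the parts of degree `m`, `2 m`, `B` is the sum of the `‖P w‖²`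
over an orthonormal basis of the orthogonal complement of `h` in degree zero, `S` the sum of the
`‖[w, w']‖²` over an orthonormal basis in degree zero. -/
theorem num_sharp {s b k N₁ N₂ d : ℕ} {B S : ℝ} (hk : k ≤ 1) (hs : 2 ≤ s)
    (h1 : ((b : ℝ) + 2 * s) * (1 / 2 + B + N₁ / 2 + N₂) ≤ s * (d + 2 * N₁ + 2 * N₂))
    (h2 : d ≤ s ^ 2 + k) (h3 : b ≤ N₁ * s) (h4 : 0 ≤ B) (h5 : S ≤ 2 * s * B)
    (h6 : ((N₁ + 4 * N₂ : ℝ) / s) * (d - N₁ - N₂) ≤ S)
    (h7 : N₂ = 0 → S = ((N₁ : ℝ) / s) * (d - N₁)) (h8 : 0 ≤ S) (h9 : S = 0 → d ≤ s + k)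
    (h10 : B = 0 → d ≤ k + 1) : b ≤ s ^ 2 := by
  by_contra hcon
  rw [not_le] at hcon
  have hN : s + 1 ≤ N₁ := by
    by_contra h
    have h11 : N₁ ≤ s := by omega
    have h12 : N₁ * s ≤ s * s := Nat.mul_le_mul_right s h11
    nlinarith
  have hs0 : (0 : ℝ) < s := by
    have : (2 : ℝ) ≤ s := by exact_mod_cast hs
    linarith
  have hs2 : (2 : ℝ) ≤ s := by exact_mod_cast hs
  have hbR : (s : ℝ) ^ 2 + 1 ≤ b := by exact_mod_cast hcon
  have star : ((s : ℝ) + 1) ^ 2 * (1 / 2 + B + N₁ / 2 + N₂) ≤ s * (d + 2 * N₁ + 2 * N₂) := by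
    refine le_trans (mul_le_mul_of_nonneg_right ?_ (by positivity)) h1
    nlinarith
  have hd2 : d ≤ s ^ 2 + 1 := by omega
  -- the case `N₁ + N₂ < d`
  have big : ¬ N₁ + N₂ + 1 ≤ d := by
    intro hlt
    set N := N₁ + N₂ with hNdef
    have hNr : (N : ℝ) = N₁ + N₂ := by rw [hNdef]; push_cast; ring
    have hG := G_pos (s := s) (N := N) (d := d) (by exact_mod_cast hs) (by omega) (by omega) (by exact_mod_cast hd2)
    have hGR : (0 : ℝ) < ((s : ℝ) + 1) ^ 2 * ((s : ℝ) ^ 2 + N * (d - N) + (s : ℝ) ^ 2 * N) -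
        2 * (s : ℝ) ^ 3 * (d + 2 * N) := by exact_mod_cast hG
    have hdN : (0 : ℝ) ≤ (d : ℝ) - N := by
      have : ((N + 1 : ℕ) : ℝ) ≤ d := by exact_mod_cast hlt
      push_cast at this
      linarith
    have hS : (N : ℝ) / s * (d - N) ≤ S := by
      refine le_trans ?_ h6
      rw [hNr, sub_sub]
      rw [hNr] at hdN
      refine mul_le_mul_of_nonneg_right ?_ hdN
      gcongr
      have : (0 : ℝ) ≤ N₂ := Nat.cast_nonneg _
      linarith
    have hB : (N : ℝ) * (d - N) ≤ 2 * (s : ℝ) ^ 2 * B := by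
      have e1 : (N : ℝ) * (d - N) = s * ((N : ℝ) / s * (d - N)) := by field_simp
      rw [e1]
      calc (s : ℝ) * ((N : ℝ) / s * (d - N)) ≤ s * S := mul_le_mul_of_nonneg_left hS hs0.le
        _ ≤ s * (2 * s * B) := mul_le_mul_of_nonneg_left h5 hs0.le
        _ = 2 * (s : ℝ) ^ 2 * B := by ring
    have st : ((s : ℝ) + 1) ^ 2 * (1 / 2 + B + N / 2) ≤ s * (d + 2 * N) := by
      have e1 : ((s : ℝ) + 1) ^ 2 * (1 / 2 + B + N / 2) ≤ ((s : ℝ) + 1) ^ 2 * (1 / 2 + B + N₁ / 2 + N₂) := by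
        apply mul_le_mul_of_nonneg_left _ (by positivity)
        rw [hNr]
        have : (0 : ℝ) ≤ N₂ := Nat.cast_nonneg _
        linarith
      have e2 : (s : ℝ) * (d + 2 * N) = s * (d + 2 * N₁ + 2 * N₂) := by rw [hNr]; ring
      rw [e2]
      linarith
    have st2 : ((s : ℝ) + 1) ^ 2 * ((s : ℝ) ^ 2 + 2 * (s : ℝ) ^ 2 * B + (s : ℝ) ^ 2 * N) ≤
        2 * (s : ℝ) ^ 3 * (d + 2 * N) := by
      have e1 := mul_le_mul_of_nonneg_left st (by positivity : (0 : ℝ) ≤ 2 * (s : ℝ) ^ 2)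
      calc ((s : ℝ) + 1) ^ 2 * ((s : ℝ) ^ 2 + 2 * (s : ℝ) ^ 2 * B + (s : ℝ) ^ 2 * N) =
          2 * (s : ℝ) ^ 2 * (((s : ℝ) + 1) ^ 2 * (1 / 2 + B + N / 2)) := by ring
        _ ≤ _ := e1
        _ = _ := by ring
    have st3 : ((s : ℝ) + 1) ^ 2 * ((s : ℝ) ^ 2 + N * (d - N) + (s : ℝ) ^ 2 * N) ≤
        ((s : ℝ) + 1) ^ 2 * ((s : ℝ) ^ 2 + 2 * (s : ℝ) ^ 2 * B + (s : ℝ) ^ 2 * N) := by
      apply mul_le_mul_of_nonneg_left _ (by positivity)
      linarith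
    linarith
  rcases Nat.eq_zero_or_pos N₂ with h0 | h0
  · -- no part of degree `2 m`
    have hS := h7 h0
    rw [h0] at star big
    have hN1 : (0 : ℝ) < N₁ := by
      have : 0 < N₁ := by omega
      exact_mod_cast this
    have hge : (N₁ : ℝ) ≤ d := by
      by_contra hlt
      rw [not_le] at hlt
      have : (N₁ : ℝ) / s * (d - N₁) < 0 := mul_neg_of_pos_of_neg (by positivity) (by linarith)
      linarith
    have hge' : N₁ ≤ d := by exact_mod_cast hge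
    have hdN : d = N₁ := by omega
    rw [hdN, sub_self, mul_zero] at hS
    have h11 := h9 hS
    have hN1s : N₁ = s + 1 := by omega
    have hk1 : k = 1 := by omega
    rw [hdN, hN1s] at star
    push_cast at star
    have e1 : ((s : ℝ) + 1) * (((s : ℝ) - 1) * (s - 2) + 2 * (s + 1) * B) ≤ 0 := by nlinarith
    have e2 : ((s : ℝ) - 1) * (s - 2) + 2 * (s + 1) * B ≤ 0 := by
      by_contra h
      rw [not_le] at h
      have := mul_pos (by linarith : (0 : ℝ) < (s : ℝ) + 1) h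
      linarith
    have e3 : 0 ≤ ((s : ℝ) - 1) * (s - 2) := mul_nonneg (by linarith) (by linarith)
    have e4 : B = 0 := by nlinarith
    have h12 := h10 e4
    omega
  · have hle : d ≤ N₁ + N₂ := by omega
    have hleR : (d : ℝ) ≤ N₁ + N₂ := by exact_mod_cast hle
    have hN2R : (1 : ℝ) ≤ N₂ := by exact_mod_cast h0
    have hN1R : (0 : ℝ) ≤ N₁ := Nat.cast_nonneg _
    have st : ((s : ℝ) + 1) ^ 2 * (1 / 2 + N₁ / 2 + N₂) ≤ s * (d + 2 * N₁ + 2 * N₂) := by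
      refine le_trans (mul_le_mul_of_nonneg_left ?_ (by positivity)) star
      linarith
    rcases lt_or_ge s 4 with h4' | h4'
    · have h5' : s = 2 ∨ s = 3 := by omega
      rcases h5' with h6' | h6'
      · rw [h6'] at st hd2 hN
        norm_num at hd2
        have e1 : (9 + 9 * N₁ + 18 * N₂ : ℝ) ≤ 4 * d + 8 * N₁ + 8 * N₂ := by
          push_cast at st; linarith
        have e2 : 9 + 9 * N₁ + 18 * N₂ ≤ 4 * d + 8 * N₁ + 8 * N₂ := by exact_mod_cast e1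
        omega
      · rw [h6'] at st hd2 hN
        norm_num at hd2
        have e1 : (8 + 8 * N₁ + 16 * N₂ : ℝ) ≤ 3 * d + 6 * N₁ + 6 * N₂ := by
          push_cast at st; linarith
        have e2 : 8 + 8 * N₁ + 16 * N₂ ≤ 3 * d + 6 * N₁ + 6 * N₂ := by exact_mod_cast e1
        omega
    · have hs4 : (4 : ℝ) ≤ s := by exact_mod_cast h4'
      have e1 : 6 * (s : ℝ) ≤ (s + 1) ^ 2 := by nlinarith
      have e2 : ((s : ℝ) + 1) ^ 2 * (1 + (N₁ + N₂)) ≤ 6 * s * (N₁ + N₂) := by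
        have a1 : ((s : ℝ) + 1) ^ 2 * ((1 + (N₁ + N₂)) / 2) ≤ ((s : ℝ) + 1) ^ 2 * (1 / 2 + N₁ / 2 + N₂) := by
          apply mul_le_mul_of_nonneg_left _ (by positivity)
          linarith
        have a2 : (s : ℝ) * (d + 2 * N₁ + 2 * N₂) ≤ s * (3 * (N₁ + N₂)) := by
          apply mul_le_mul_of_nonneg_left _ hs0.le
          linarith
        linarith
      have e3 : 6 * (s : ℝ) * (1 + (N₁ + N₂)) ≤ (s + 1) ^ 2 * (1 + (N₁ + N₂)) :=
        mul_le_mul_of_nonneg_right e1 (by positivity)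
      linarith

end MH
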